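import Mathlib
import Pool.Agent.Helper78.PcrDefs
import Pool.Agent.Helper78.PcrMain

/-!
# Optimal-colouring reconfiguration is NP-hard on perfect graphs

The definitions (perfect graphs, `k`-colourings, recolouring steps, `χ(G, k, f₀)` and the decision
problems) are in `Pool.Agent.Helper78.PcrDefs`; decision problems, the class NP and polynomial-time
many-one reductions are in `Pool.Agent.Helper81.CxDefs`.
-/

namespace Pool.Agent.Results.MP_391ee8_lc.PerfectHard

open Pool.Agent.Helper78.PCR

/-- Optimal-colouring reconfiguration (given a graph `G`, a number `k`, a `k`-colouring `f₀` of `G`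
and a number `m`, decide whether `χ(G, k, f₀) ≤ m`) is NP-hard on perfect graphs. For every fixed
`k ≥ 5`, it is even NP-hard to decide `χ(G, k, f₀) < k` for bipartite graphs `G`. -/
theorem result : OCRPerfect.NPHard ∧ ∀ k, 5 ≤ k → (OCRBipartite k).NPHard :=
  ⟨ocrPerfect_npHard, fun _ hk => ocrBipartite_npHard hk⟩

end Pool.Agent.Results.MP_391ee8_lc.PerfectHard
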